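import Pool.Agent.LibConn77.Final

open Filter Topology Pool.Agent.LibConn77

namespace Pool.Agent.Results.MP_66c21b_co.AlmostAllOrders

/-- For every disconnected graph `H`, in the labelled and in the unlabelled model, the
probability that a random `H`-free graph on `n` vertices is connected tends to `1` as `n` tends
to infinity outside a set `B` of natural numbers with `∑ n ∈ B, 1 / n < ∞`; so no disconnected
graph has the limit property, in either model. -/
theorem result {m : ℕ} (H : SimpleGraph (Fin m)) (hH : ¬ H.Preconnected) :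
    (¬ LimitProperty (labProb H) ∧ ¬ LimitProperty (unlProb H)) ∧
    ∃ B : Set ℕ, Summable (B.indicator fun n => 1 / (n : ℝ)) ∧
      Tendsto (labProb H) (atTop ⊓ 𝓟 Bᶜ) (𝓝 1) ∧
      Tendsto (unlProb H) (atTop ⊓ 𝓟 Bᶜ) (𝓝 1) :=
  main H hH

end Pool.Agent.Results.MP_66c21b_co.AlmostAllOrders
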